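import Mathlib

/-!
# Project HC, second round, piece LB: partial integration against a slowly varying weight
-/

set_option autoImplicit false

namespace Pool.Agent.T9h70.HC

open Complex MeasureTheory Set intervalIntegral

theorem parts_core {Z : ℝ → ℂ} (hZ : Continuous Z) {a T l K M : ℝ} (ha : 0 < a)
    (haT : a ≤ T) (hTa : T ≤ 2 * a) {f f' : ℝ → ℝ} (hf : ∀ t ∈ Icc a T, HasDerivAt f (f' t) t)
    (hf' : ContinuousOn f' (Icc a T)) (hK : ∀ t ∈ Icc a T, |f t| ≤ K)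
    (hK' : ∀ t ∈ Icc a T, |t * f' t| ≤ K)
    (hM : ∀ x, a ≤ x → x ≤ T → ‖∫ t in a..x, Z t * cexp (I * ((t * l : ℝ) : ℂ))‖ ≤ M) :
    ‖∫ t in a..T, Z t * (((f t : ℝ) : ℂ) * cexp (I * ((t * l : ℝ) : ℂ)))‖ ≤ 2 * (K * M) := by
  have hM0 : 0 ≤ M := (norm_nonneg _).trans (hM a le_rfl haT)
  have hK0 : 0 ≤ K := (abs_nonneg _).trans (hK a ⟨le_rfl, haT⟩)
  set g : ℝ → ℂ := fun t => Z t * cexp (I * ((t * l : ℝ) : ℂ)) with hg
  have hgc : Continuous g := by
    rw [hg]
    fun_prop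
  set F : ℝ → ℂ := fun x => ∫ t in a..x, g t with hF
  have hFd : ∀ x, HasDerivAt F (g x) x := fun x => (hgc.integral_hasStrictDerivAt a x).hasDerivAt
  have hFa : F a = 0 := by rw [hF]; exact integral_same
  have huIcc : uIcc a T = Icc a T := uIcc_of_le haT
  have hWd : ∀ t ∈ uIcc a T, HasDerivAt (fun t => ((f t : ℝ) : ℂ)) ((f' t : ℝ) : ℂ) t := by
    intro t ht
    rw [huIcc] at ht
    exact (hf t ht).ofReal_comp
  have hf'c : ContinuousOn f' (uIcc a T) := by rwa [huIcc]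
  have hui : IntervalIntegrable (fun t : ℝ => ((f' t : ℝ) : ℂ)) volume a T :=
    (Complex.continuous_ofReal.comp_continuousOn hf'c).intervalIntegrable
  have hgi : IntervalIntegrable g volume a T := hgc.intervalIntegrable a T
  have hparts := integral_mul_deriv_eq_deriv_mul hWd (fun t _ => hFd t) hui hgi
  rw [hFa, mul_zero, sub_zero] at hparts
  have hint : ∫ t in a..T, Z t * (((f t : ℝ) : ℂ) * cexp (I * ((t * l : ℝ) : ℂ))) =
      ∫ t in a..T, ((f t : ℝ) : ℂ) * g t := by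
    refine integral_congr fun t _ => ?_
    simp only [hg]
    ring
  rw [hint, hparts]
  have h1 : ‖((f T : ℝ) : ℂ) * F T‖ ≤ K * M := by
    rw [norm_mul, Complex.norm_real, Real.norm_eq_abs]
    exact mul_le_mul (hK T ⟨haT, le_rfl⟩) (hM T haT le_rfl) (norm_nonneg _) hK0
  have h2 : ‖∫ t in a..T, ((f' t : ℝ) : ℂ) * F t‖ ≤ K * M := by
    have h3 : ‖∫ t in a..T, ((f' t : ℝ) : ℂ) * F t‖ ≤ K / a * M * |T - a| := by
      refine norm_integral_le_of_norm_le_const fun t ht => ?_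
      rw [uIoc_of_le haT] at ht
      have ht' : t ∈ Icc a T := ⟨ht.1.le, ht.2⟩
      have ht0 : 0 < t := ha.trans ht.1
      rw [norm_mul, Complex.norm_real, Real.norm_eq_abs]
      refine mul_le_mul ?_ (hM t ht'.1 ht'.2) (norm_nonneg _) (by positivity)
      have h4 := hK' t ht'
      rw [abs_mul, abs_of_pos ht0] at h4
      rw [le_div_iff₀ ha]
      calc |f' t| * a ≤ |f' t| * t := mul_le_mul_of_nonneg_left ht'.1 (abs_nonneg _)
        _ = t * |f' t| := mul_comm _ _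
        _ ≤ K := h4
    refine h3.trans ?_
    rw [abs_of_nonneg (by linarith)]
    have h5 : K / a * M * (T - a) ≤ K / a * M * a :=
      mul_le_mul_of_nonneg_left (by linarith) (by positivity)
    refine h5.trans (le_of_eq ?_)
    field_simp
  calc ‖((f T : ℝ) : ℂ) * F T - ∫ t in a..T, ((f' t : ℝ) : ℂ) * F t‖
      ≤ ‖((f T : ℝ) : ℂ) * F T‖ + ‖∫ t in a..T, ((f' t : ℝ) : ℂ) * F t‖ := norm_sub_le _ _
    _ ≤ K * M + K * M := add_le_add h1 h2
    _ = 2 * (K * M) := by ring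

end Pool.Agent.T9h70.HC
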