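import Pool.Agent.T9h29.HC.Spec2
import Pool.Agent.T9h70.HC.LbA
import Pool.Agent.Y545.GP.CR
import Pool.Agent.Y587.GP.V

/-!
# Project HC, second round, piece LB
-/

set_option autoImplicit false

namespace Pool.Agent.T9h70.HC

open Complex Filter Topology MeasureTheory Set
open Pool.Agent.R304.SG (Z)
open Pool.Agent.Y969.GP (ff ht lam FR cr)
open Pool.Agent.N879.PZ (ee HH Wb)
open Pool.Agent.T9h29.HC

theorem lb : S_TM2 → S_LB := by
  rintro ⟨C, hC, h⟩
  obtain ⟨-, -, C', hC', hcr⟩ := Pool.Agent.Y545.GP.t_CR Pool.Agent.Y587.GP.t_V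
  refine ⟨10 * C' * C, 1, by positivity, ?_⟩
  intro T a X p hT ha haT hX1 hX2 hp
  have ha0 : 0 < a := by linarith
  have hlT : 1 ≤ Real.log T := by
    have h3 : Real.exp 1 ≤ T := by
      have := Real.exp_one_lt_d9
      linarith
    have := Real.log_le_log (Real.exp_pos 1) h3
    rwa [Real.log_exp] at this
  have hX0 : (0 : ℝ) < X := lt_of_lt_of_le (by positivity) hX1
  have hlX : 1 + Real.log X ≤ 5 * Real.log T := by
    have h3 : (X : ℝ) ≤ T ^ 4 := by
      refine hX2.trans ?_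
      nlinarith [sq_nonneg (T ^ 2 - 9), sq_nonneg T]
    have h4 := Real.log_le_log hX0 h3
    rw [Real.log_pow] at h4
    push_cast at h4
    linarith
  set K : ℝ := C' * (5 * Real.log T) * (√(ht p))⁻¹ with hK
  have hs : 0 ≤ (√(ht p))⁻¹ := by positivity
  have hKX : C' * (1 + Real.log X) * (√(ht p))⁻¹ ≤ K := by
    rw [hK]
    gcongr
  have h1 := parts_core Pool.Agent.R304.SG.Z_cont ha0 haT (by linarith) (l := lam p)
    (f := cr X p) (f' := deriv (cr X p)) (K := K)
    (M := C * (T ^ (3 / 4 : ℝ) * Real.exp (-(|lam p| / 2)) + √T))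
    (fun t ht' => (hcr X p hp t (ha0.trans_le ht'.1)).1.hasDerivAt)
    (fun t ht' => (hcr X p hp t (ha0.trans_le ht'.1)).2.1.continuousAt.continuousWithinAt)
    (fun t ht' => ((hcr X p hp t (ha0.trans_le ht'.1)).2.2.2.1).trans hKX)
    (fun t ht' => ((hcr X p hp t (ha0.trans_le ht'.1)).2.2.2.2.1).trans hKX)
    (fun x hax hxT => h a x T (lam p) hT ha hax hxT)
  refine h1.trans (le_of_eq ?_)
  rw [hK, pow_one]
  ring

end Pool.Agent.T9h70.HC
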